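import Pool.Agent.H.MP_a1ab69_an.E

set_option autoImplicit false
open scoped ENNReal

namespace Pool.Agent.Results.MP_a1ab69_an.Q2

def Hk (d k : ℕ) (F : Type) [Field F] [Fintype F] [DecidableEq F] : Finset (Fin d → F) :=
  Finset.univ.filter fun x : Fin d → F => ∀ i : Fin d, k ≤ i.val →
    ∑ l ∈ Finset.univ.filter (fun l : Fin d => l.val < k), x l ^ (i.val - k + 2) =
      x i ^ (i.val - k + 2)

def Bdd (d k : ℕ) (p r : ℝ≥0∞) : Prop :=
  ∃ N : ℕ, ∃ C : ℝ, ∀ (F : Type) [Field F] [Fintype F] [DecidableEq F], N < ringChar F →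
    IsSquare (-1 : F) → ∀ f : (Fin d → F) → ℂ,
      (Fintype.card F : ℝ) ^ (-(d : ℝ) * (r⁻¹).toReal) *
        ‖(WithLp.toLp r (fun y : Fin d → F =>
            (((Hk d k F).card : ℂ))⁻¹ * ∑ x ∈ Hk d k F, f (y - x)) :
          PiLp r (fun _ : Fin d → F => ℂ))‖
      ≤ C * ((Fintype.card F : ℝ) ^ (-(d : ℝ) * (p⁻¹).toReal) *
          ‖(WithLp.toLp p f : PiLp p (fun _ : Fin d → F => ℂ))‖)

noncomputable def Reg (d k : ℝ) : Set (ℝ × ℝ) :=
  convexHull ℝ {(0, 0), (0, 1), (1, 1),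
    ((d * k - 2 * k + d) / (k * (2 * d - k - 1)), (k + 1) * (d - k) / (k * (2 * d - k - 1))),
    (d * (k - 1) / (k * (2 * d - k - 1)), (d - k) * (k - 1) / (k * (2 * d - k - 1)))}

theorem result : ∃ d k : ℕ, Odd k ∧ 3 ≤ k ∧ k + 2 ≤ d ∧ ∃ p r : ℝ≥0∞, 1 ≤ p ∧ 1 ≤ r ∧
    Bdd d k p r ∧ ((p⁻¹).toReal, (r⁻¹).toReal) ∉ Reg d k := by
  have e : (16 / 11 : ℝ≥0∞).toReal = 16 / 11 := by simp
  refine ⟨5, 3, by decide, le_rfl, le_rfl, 16 / 11, 3, ?_, by norm_num, ?_, fun h => ?_⟩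
  · rw [ENNReal.le_div_iff_mul_le (by simp) (by simp)]
    norm_num
  · obtain ⟨C, hC⟩ := Pool.Agent.H.MP_a1ab69_an.est
    refine ⟨44 ^ 4, C, fun F _ _ _ h1 h2 f => ?_⟩
    have q0 : (0 : ℝ) < Fintype.card F := Nat.cast_pos.2 Fintype.card_pos
    have := hC F h1 h2 f
    rw [Real.div_rpow (by positivity) (by positivity), Real.div_rpow (by positivity) (by positivity),
      ← Real.rpow_natCast_mul q0.le, ← Real.rpow_natCast_mul q0.le, div_eq_inv_mul, div_eq_inv_mul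
      (_ ^ _), ← Real.rpow_neg q0.le, ← Real.rpow_neg q0.le] at this
    rw [show Hk 5 3 F = Pool.Agent.H.MP_a1ab69_an.HH F by
        ext x
        simp [Hk, Pool.Agent.H.MP_a1ab69_an.mH, Pool.Agent.H.MP_a1ab69_an.b,
          Pool.Agent.H.MP_a1ab69_an.P, Fin.forall_fin_succ, Finset.sum_filter, Fin.sum_univ_five,
          sub_eq_zero, sq],
      PiLp.norm_eq_sum (by simp), PiLp.norm_eq_sum (by simp), ENNReal.toReal_inv,
      ENNReal.toReal_inv, e]
    convert this using 3 <;> norm_num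
  · have := convexHull_min (t := {x : ℝ × ℝ | x.1 - x.2 ≤ 1 / 3}) (by
      intro x hx
      simp only [Set.mem_insert_iff, Set.mem_singleton_iff] at hx
      rcases hx with rfl | rfl | rfl | rfl | rfl <;> norm_num)
      (convex_halfSpace_le ⟨fun _ _ => by simp; ring, fun _ _ => by simp; ring⟩ _) h
    simp at this
    norm_num at this

end Pool.Agent.Results.MP_a1ab69_an.Q2
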